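import Mathlib

/-! # Bessel inequalities for positive definite functions -/

set_option autoImplicit false

open MeasureTheory Finset

namespace Pool.Agent.U252.LV

/-- the transform of the measure `p μ` -/
noncomputable def KK (μ : Measure ℝ) (p : ℝ → ℝ) (c : ℝ) : ℝ :=
  ∫ x, p x * Real.cos (2 * Real.pi * c * x) ∂μ

section

variable {μ : Measure ℝ} [IsFiniteMeasure μ] {p : ℝ → ℝ}

lemma int_bdd (hp : Continuous p) (h0 : ∀ x, 0 ≤ p x) (h1 : ∀ x, p x ≤ 1) {g : ℝ → ℝ}
    (hg : Continuous g) {B : ℝ} (hB : ∀ x, |g x| ≤ B) : Integrable (fun x => p x * g x) μ := by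
  refine Integrable.of_bound (hp.mul hg).aestronglyMeasurable B (ae_of_all _ fun x => ?_)
  rw [norm_mul, Real.norm_eq_abs, Real.norm_eq_abs, abs_of_nonneg (h0 x)]
  have h2 := hB x
  have h3 := abs_nonneg (g x)
  have h4 := h1 x
  have h5 := h0 x
  nlinarith

lemma int_cos (hp : Continuous p) (h0 : ∀ x, 0 ≤ p x) (h1 : ∀ x, p x ≤ 1) (c : ℝ) :
    Integrable (fun x => p x * Real.cos (2 * Real.pi * c * x)) μ :=
  int_bdd hp h0 h1 (by fun_prop) (B := 1) fun x => Real.abs_cos_le_one _

omit [IsFiniteMeasure μ] in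
lemma KK_neg (c : ℝ) : KK μ p (-c) = KK μ p c := by
  unfold KK
  congr 1
  ext x
  rw [show 2 * Real.pi * -c * x = -(2 * Real.pi * c * x) by ring, Real.cos_neg]

/-- **Cauchy-Schwarz** for the positive definite function -/
theorem sel (hp : Continuous p) (h0 : ∀ x, 0 ≤ p x) (h1 : ∀ x, p x ≤ 1) {ι : Type*}
    (s : Finset ι) (y c : ι → ℝ) :
    (∑ i ∈ s, y i * KK μ p (c i)) ^ 2 ≤
      KK μ p 0 * ∑ i ∈ s, ∑ j ∈ s, y i * y j * KK μ p (c i - c j) := by
  have key : ∀ l : ℝ, 0 ≤ KK μ p 0 * (l * l) + (-2 * ∑ i ∈ s, y i * KK μ p (c i)) * l +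
      ∑ i ∈ s, ∑ j ∈ s, y i * y j * KK μ p (c i - c j) := by
    intro l
    have e : KK μ p 0 * (l * l) + (-2 * ∑ i ∈ s, y i * KK μ p (c i)) * l +
        ∑ i ∈ s, ∑ j ∈ s, y i * y j * KK μ p (c i - c j) =
        ∫ x, p x * ((l - ∑ i ∈ s, y i * Real.cos (2 * Real.pi * c i * x)) ^ 2 +
          (∑ i ∈ s, y i * Real.sin (2 * Real.pi * c i * x)) ^ 2) ∂μ := by
      have e1 : ∀ x, p x * ((l - ∑ i ∈ s, y i * Real.cos (2 * Real.pi * c i * x)) ^ 2 +
          (∑ i ∈ s, y i * Real.sin (2 * Real.pi * c i * x)) ^ 2) =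
          (l * l) * (p x * Real.cos (2 * Real.pi * 0 * x)) +
          (-2 * l) * (∑ i ∈ s, y i * (p x * Real.cos (2 * Real.pi * c i * x))) +
          ∑ i ∈ s, ∑ j ∈ s, y i * y j * (p x * Real.cos (2 * Real.pi * (c i - c j) * x)) := by
        intro x
        have e2 : ∑ i ∈ s, ∑ j ∈ s, y i * y j * (p x * Real.cos (2 * Real.pi * (c i - c j) * x)) =
            p x * ((∑ i ∈ s, y i * Real.cos (2 * Real.pi * c i * x)) ^ 2 +
              (∑ i ∈ s, y i * Real.sin (2 * Real.pi * c i * x)) ^ 2) := by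
          rw [sq, sq, Finset.sum_mul_sum, Finset.sum_mul_sum, ← Finset.sum_add_distrib,
            Finset.mul_sum]
          refine Finset.sum_congr rfl fun i _ => ?_
          rw [← Finset.sum_add_distrib, Finset.mul_sum]
          refine Finset.sum_congr rfl fun j _ => ?_
          rw [show 2 * Real.pi * (c i - c j) * x = 2 * Real.pi * c i * x - 2 * Real.pi * c j * x
            by ring, Real.cos_sub]
          ring
        have e3 : ∑ i ∈ s, y i * (p x * Real.cos (2 * Real.pi * c i * x)) =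
            p x * ∑ i ∈ s, y i * Real.cos (2 * Real.pi * c i * x) := by
          rw [Finset.mul_sum]
          exact Finset.sum_congr rfl fun i _ => by ring
        rw [e2, e3]
        simp only [mul_zero, zero_mul, Real.cos_zero]
        ring
      simp_rw [e1]
      have i1 : Integrable (fun x => (l * l) * (p x * Real.cos (2 * Real.pi * 0 * x))) μ :=
        (int_cos hp h0 h1 0).const_mul _
      have i2 : Integrable (fun x => (-2 * l) *
          (∑ i ∈ s, y i * (p x * Real.cos (2 * Real.pi * c i * x)))) μ :=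
        (integrable_finsetSum _ fun i _ => (int_cos hp h0 h1 (c i)).const_mul _).const_mul _
      have i3 : Integrable (fun x => ∑ i ∈ s, ∑ j ∈ s, y i * y j *
          (p x * Real.cos (2 * Real.pi * (c i - c j) * x))) μ :=
        integrable_finsetSum _ fun i _ => integrable_finsetSum _ fun j _ =>
          (int_cos hp h0 h1 (c i - c j)).const_mul _
      have i12 : Integrable (fun x => (l * l) * (p x * Real.cos (2 * Real.pi * 0 * x)) + (-2 * l) *
          (∑ i ∈ s, y i * (p x * Real.cos (2 * Real.pi * c i * x)))) μ := i1.add i2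
      rw [integral_add i12 i3, integral_add i1 i2, integral_const_mul, integral_const_mul,
        integral_finsetSum _ fun i _ => (int_cos hp h0 h1 (c i)).const_mul _,
        integral_finsetSum _ fun i _ => integrable_finsetSum _ fun j _ =>
          (int_cos hp h0 h1 (c i - c j)).const_mul _]
      have e4 : ∀ i ∈ s, ∫ x, ∑ j ∈ s, y i * y j *
          (p x * Real.cos (2 * Real.pi * (c i - c j) * x)) ∂μ =
          ∑ j ∈ s, y i * y j * KK μ p (c i - c j) := by
        intro i _
        rw [integral_finsetSum _ fun j _ => (int_cos hp h0 h1 (c i - c j)).const_mul _]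
        exact Finset.sum_congr rfl fun j _ => integral_const_mul _ _
      rw [Finset.sum_congr rfl e4]
      have e5 : ∑ i ∈ s, ∫ x, y i * (p x * Real.cos (2 * Real.pi * c i * x)) ∂μ =
          ∑ i ∈ s, y i * KK μ p (c i) :=
        Finset.sum_congr rfl fun i _ => integral_const_mul _ _
      rw [e5]
      unfold KK
      ring
    rw [e]
    exact integral_nonneg fun x => mul_nonneg (h0 x) (by positivity)
  have h := discrim_le_zero key
  unfold discrim at h
  nlinarith

/-- **Cauchy-Schwarz** for the odd functions about `c / 2` -/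
theorem odd (hp : Continuous p) (h0 : ∀ x, 0 ≤ p x) (h1 : ∀ x, p x ≤ 1) (c h : ℝ) (K : ℕ) :
    (∑ k ∈ Finset.range K, ((k : ℝ) + 1) *
      (2 * (KK μ p (c / 2 - (k + 1) * h) - KK μ p (c / 2 + (k + 1) * h)))) ^ 2 ≤
    (2 * (KK μ p 0 - KK μ p c)) *
      ∑ j ∈ Finset.range K, ∑ k ∈ Finset.range K, ((j : ℝ) + 1) * ((k : ℝ) + 1) *
        (2 * (KK μ p (((j : ℝ) - k) * h) - KK μ p (((j : ℝ) + k + 2) * h))) := by
  obtain ⟨B, hB⟩ : ∃ B : ℝ → ℝ, ∀ x, B x = ∑ k ∈ Finset.range K, ((k : ℝ) + 1) *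
      (2 * Real.sin (2 * Real.pi * (((k : ℝ) + 1) * h) * x)) := ⟨_, fun x => rfl⟩
  have a1 : ∀ x, p x * (2 * Real.sin (Real.pi * c * x)) ^ 2 =
      2 * (p x * Real.cos (2 * Real.pi * 0 * x)) - 2 * (p x * Real.cos (2 * Real.pi * c * x)) := by
    intro x
    have e1 : Real.cos (2 * Real.pi * c * x) = 1 - 2 * Real.sin (Real.pi * c * x) ^ 2 := by
      have h2 := Real.cos_two_mul (Real.pi * c * x)
      have h3 := Real.sin_sq_add_cos_sq (Real.pi * c * x)
      rw [show 2 * (Real.pi * c * x) = 2 * Real.pi * c * x by ring] at h2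
      rw [h2]
      linarith
    rw [e1]
    simp only [mul_zero, zero_mul, Real.cos_zero]
    ring
  have hsc : ∀ u v : ℝ, 2 * Real.sin u * (2 * Real.sin v) =
      2 * (Real.cos (u - v) - Real.cos (u + v)) := by
    intro u v
    rw [Real.cos_sub, Real.cos_add]
    ring
  have a2 : ∀ x, p x * (2 * Real.sin (Real.pi * c * x) * B x) =
      ∑ k ∈ Finset.range K, ((k : ℝ) + 1) *
        (2 * (p x * Real.cos (2 * Real.pi * (c / 2 - (k + 1) * h) * x)) -
          2 * (p x * Real.cos (2 * Real.pi * (c / 2 + (k + 1) * h) * x))) := by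
    intro x
    rw [hB, Finset.mul_sum, Finset.mul_sum]
    refine Finset.sum_congr rfl fun k _ => ?_
    have e1 := hsc (Real.pi * c * x) (2 * Real.pi * (((k : ℝ) + 1) * h) * x)
    rw [show Real.pi * c * x - 2 * Real.pi * (((k : ℝ) + 1) * h) * x =
        2 * Real.pi * (c / 2 - (k + 1) * h) * x by ring,
      show Real.pi * c * x + 2 * Real.pi * (((k : ℝ) + 1) * h) * x =
        2 * Real.pi * (c / 2 + (k + 1) * h) * x by ring] at e1
    calc p x * (2 * Real.sin (Real.pi * c * x) * (((k : ℝ) + 1) *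
          (2 * Real.sin (2 * Real.pi * (((k : ℝ) + 1) * h) * x)))) =
        p x * ((k : ℝ) + 1) * (2 * Real.sin (Real.pi * c * x) *
          (2 * Real.sin (2 * Real.pi * (((k : ℝ) + 1) * h) * x))) := by ring
      _ = _ := by rw [e1]; ring
  have a3 : ∀ x, p x * (B x) ^ 2 =
      ∑ j ∈ Finset.range K, ∑ k ∈ Finset.range K, ((j : ℝ) + 1) * ((k : ℝ) + 1) *
        (2 * (p x * Real.cos (2 * Real.pi * (((j : ℝ) - k) * h) * x)) -
          2 * (p x * Real.cos (2 * Real.pi * (((j : ℝ) + k + 2) * h) * x))) := by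
    intro x
    rw [hB, sq, Finset.sum_mul_sum, Finset.mul_sum]
    refine Finset.sum_congr rfl fun j _ => ?_
    rw [Finset.mul_sum]
    refine Finset.sum_congr rfl fun k _ => ?_
    have e1 := hsc (2 * Real.pi * (((j : ℝ) + 1) * h) * x) (2 * Real.pi * (((k : ℝ) + 1) * h) * x)
    rw [show 2 * Real.pi * (((j : ℝ) + 1) * h) * x - 2 * Real.pi * (((k : ℝ) + 1) * h) * x =
        2 * Real.pi * (((j : ℝ) - k) * h) * x by ring,
      show 2 * Real.pi * (((j : ℝ) + 1) * h) * x + 2 * Real.pi * (((k : ℝ) + 1) * h) * x =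
        2 * Real.pi * (((j : ℝ) + k + 2) * h) * x by ring] at e1
    calc p x * (((j : ℝ) + 1) * (2 * Real.sin (2 * Real.pi * (((j : ℝ) + 1) * h) * x)) *
          (((k : ℝ) + 1) * (2 * Real.sin (2 * Real.pi * (((k : ℝ) + 1) * h) * x)))) =
        p x * (((j : ℝ) + 1) * ((k : ℝ) + 1)) *
          (2 * Real.sin (2 * Real.pi * (((j : ℝ) + 1) * h) * x) *
            (2 * Real.sin (2 * Real.pi * (((k : ℝ) + 1) * h) * x))) := by ring
      _ = _ := by rw [e1]; ring
  have I : ∀ b : ℝ, Integrable (fun x => p x * Real.cos (2 * Real.pi * b * x)) μ :=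
    fun b => int_cos hp h0 h1 b
  have D : ∀ b b' : ℝ, Integrable (fun x => 2 * (p x * Real.cos (2 * Real.pi * b * x)) -
      2 * (p x * Real.cos (2 * Real.pi * b' * x))) μ := fun b b' =>
    ((I b).const_mul _).sub ((I b').const_mul _)
  have DI : ∀ b b' : ℝ, ∫ x, (2 * (p x * Real.cos (2 * Real.pi * b * x)) -
      2 * (p x * Real.cos (2 * Real.pi * b' * x))) ∂μ = 2 * (KK μ p b - KK μ p b') := by
    intro b b'
    rw [integral_sub ((I b).const_mul _) ((I b').const_mul _), integral_const_mul,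
      integral_const_mul]
    unfold KK
    ring
  have J1 : ∫ x, p x * (2 * Real.sin (Real.pi * c * x)) ^ 2 ∂μ = 2 * (KK μ p 0 - KK μ p c) := by
    simp_rw [a1]
    exact DI 0 c
  have J2 : ∫ x, p x * (2 * Real.sin (Real.pi * c * x) * B x) ∂μ =
      ∑ k ∈ Finset.range K, ((k : ℝ) + 1) *
      (2 * (KK μ p (c / 2 - (k + 1) * h) - KK μ p (c / 2 + (k + 1) * h))) := by
    simp_rw [a2]
    rw [integral_finsetSum _ fun k _ => (D _ _).const_mul _]
    refine Finset.sum_congr rfl fun k _ => ?_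
    rw [integral_const_mul, DI]
  have J3 : ∫ x, p x * (B x) ^ 2 ∂μ =
      ∑ j ∈ Finset.range K, ∑ k ∈ Finset.range K, ((j : ℝ) + 1) * ((k : ℝ) + 1) *
        (2 * (KK μ p (((j : ℝ) - k) * h) - KK μ p (((j : ℝ) + k + 2) * h))) := by
    simp_rw [a3]
    rw [integral_finsetSum _ fun j _ => integrable_finsetSum _ fun k _ => (D _ _).const_mul _]
    refine Finset.sum_congr rfl fun j _ => ?_
    rw [integral_finsetSum _ fun k _ => (D _ _).const_mul _]
    refine Finset.sum_congr rfl fun k _ => ?_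
    rw [integral_const_mul, DI]
  have i1 : Integrable (fun x => p x * (2 * Real.sin (Real.pi * c * x)) ^ 2) μ := by
    simp_rw [a1]
    exact D 0 c
  have i2 : Integrable (fun x => p x * (2 * Real.sin (Real.pi * c * x) * B x)) μ := by
    simp_rw [a2]
    exact integrable_finsetSum _ fun k _ => (D _ _).const_mul _
  have i3 : Integrable (fun x => p x * (B x) ^ 2) μ := by
    simp_rw [a3]
    exact integrable_finsetSum _ fun j _ => integrable_finsetSum _ fun k _ => (D _ _).const_mul _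
  rw [← J1, ← J2, ← J3]
  have key : ∀ l : ℝ, 0 ≤ (∫ x, p x * (2 * Real.sin (Real.pi * c * x)) ^ 2 ∂μ) * (l * l) +
      (-2 * ∫ x, p x * (2 * Real.sin (Real.pi * c * x) * B x) ∂μ) * l +
      ∫ x, p x * (B x) ^ 2 ∂μ := by
    intro l
    have e : (∫ x, p x * (2 * Real.sin (Real.pi * c * x)) ^ 2 ∂μ) * (l * l) +
      (-2 * ∫ x, p x * (2 * Real.sin (Real.pi * c * x) * B x) ∂μ) * l +
      ∫ x, p x * (B x) ^ 2 ∂μ =
      ∫ x, p x * (l * (2 * Real.sin (Real.pi * c * x)) - B x) ^ 2 ∂μ := by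
      have e1 : ∀ x, p x * (l * (2 * Real.sin (Real.pi * c * x)) - B x) ^ 2 =
          (l * l) * (p x * (2 * Real.sin (Real.pi * c * x)) ^ 2) +
          (-2 * l) * (p x * (2 * Real.sin (Real.pi * c * x) * B x)) + p x * (B x) ^ 2 := by
        intro x; ring
      simp_rw [e1]
      have i12 : Integrable (fun x => (l * l) * (p x * (2 * Real.sin (Real.pi * c * x)) ^ 2) +
          (-2 * l) * (p x * (2 * Real.sin (Real.pi * c * x) * B x))) μ :=
        (i1.const_mul _).add (i2.const_mul _)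
      rw [integral_add i12 i3,
        integral_add (i1.const_mul _) (i2.const_mul _), integral_const_mul, integral_const_mul]
      ring
    rw [e]
    exact integral_nonneg fun x => mul_nonneg (h0 x) (by positivity)
  have h := discrim_le_zero key
  unfold discrim at h
  nlinarith

end

end Pool.Agent.U252.LV
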