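import Pool.Agent.U252.LV.A
import Pool.Agent.Y749.AH.Excl
import Pool.Agent.Y744.PCR.HighPass

/-! # Harnack's inequality for Montgomery's function, and masses -/

set_option autoImplicit false

open MeasureTheory Set Filter Topology

namespace Pool.Agent.U252.LV

open Pool.Agent.Y749.Rig

/-! ### The kernel -/

lemma ker_int {L : ℝ} (hL : 0 < L) (α : ℝ) :
    Integrable fun y : ℝ => L * Real.exp (-(2 * L * |y - α|)) := by
  have h1 := (Pool.Agent.Y744.integrable_exp_neg_abs (t := 2 * L) (by positivity)).const_mul L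
  exact h1.comp_sub_right α

lemma ker_cos {L : ℝ} (hL : 0 < L) (α x : ℝ) :
    ∫ y : ℝ, L * Real.exp (-(2 * L * |y - α|)) * Real.cos (2 * Real.pi * y * x) =
      Real.cos (2 * Real.pi * α * x) * ww (2 * Real.pi * x / L) := by
  have hE : Integrable fun y : ℝ => L * Real.exp (-(2 * L * |y|)) := by
    simpa using ker_int hL 0
  have iC : ∀ b : ℝ, Integrable fun y : ℝ => L * Real.exp (-(2 * L * |y|)) * Real.cos (b * y) :=
    fun b => Integrable.mul_bdd (c := 1) hE (by fun_prop) (ae_of_all _ fun s => by
      rw [Real.norm_eq_abs]; exact Real.abs_cos_le_one _)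
  have iS : ∀ b : ℝ, Integrable fun y : ℝ => L * Real.exp (-(2 * L * |y|)) * Real.sin (b * y) :=
    fun b => Integrable.mul_bdd (c := 1) hE (by fun_prop) (ae_of_all _ fun s => by
      rw [Real.norm_eq_abs]; exact Real.abs_sin_le_one _)
  have hC : ∫ y : ℝ, L * Real.exp (-(2 * L * |y|)) * Real.cos (2 * Real.pi * x * y) =
      ww (2 * Real.pi * x / L) := by
    have e1 : ∀ y : ℝ, L * Real.exp (-(2 * L * |y|)) * Real.cos (2 * Real.pi * x * y) =
        L * (fun s : ℝ => (fun r : ℝ => Real.exp (-(2 * r)) *
          Real.cos (r * (2 * Real.pi * x / L))) |s|) (L * y) := by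
      intro y
      simp only
      rw [abs_mul, abs_of_pos hL, mul_assoc]
      congr 1
      have e2 : Real.cos (L * |y| * (2 * Real.pi * x / L)) = Real.cos (2 * Real.pi * x * y) := by
        have e3 : L * |y| * (2 * Real.pi * x / L) = 2 * Real.pi * x * |y| := by field_simp
        rw [e3]
        rcases abs_choice y with h | h
        · rw [h]
        · rw [h, mul_neg, Real.cos_neg]
      rw [e2]
      ring_nf
    simp_rw [e1]
    rw [integral_const_mul, Measure.integral_comp_mul_left (fun s : ℝ => (fun r : ℝ =>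
      Real.exp (-(2 * r)) * Real.cos (r * (2 * Real.pi * x / L))) |s|) L,
      integral_comp_abs (f := fun r : ℝ => Real.exp (-(2 * r)) *
        Real.cos (r * (2 * Real.pi * x / L))), ww_int, abs_of_pos (inv_pos.2 hL), smul_eq_mul,
      ← mul_assoc, mul_inv_cancel₀ hL.ne', one_mul]
  have hS : ∫ y : ℝ, L * Real.exp (-(2 * L * |y|)) * Real.sin (2 * Real.pi * x * y) = 0 := by
    have h1 := integral_neg_eq_self (fun y : ℝ => L * Real.exp (-(2 * L * |y|)) *
      Real.sin (2 * Real.pi * x * y)) volume
    have h2 : ∀ y : ℝ, L * Real.exp (-(2 * L * |(-y)|)) * Real.sin (2 * Real.pi * x * -y) =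
        -(L * Real.exp (-(2 * L * |y|)) * Real.sin (2 * Real.pi * x * y)) := by
      intro y
      rw [abs_neg, mul_neg, Real.sin_neg]
      ring
    simp_rw [h2] at h1
    rw [integral_neg] at h1
    linarith
  have e0 : ∫ y : ℝ, L * Real.exp (-(2 * L * |y - α|)) * Real.cos (2 * Real.pi * y * x) =
      ∫ y : ℝ, L * Real.exp (-(2 * L * |y|)) * Real.cos (2 * Real.pi * (y + α) * x) := by
    rw [← integral_sub_right_eq_self (fun y : ℝ => L * Real.exp (-(2 * L * |y|)) *
      Real.cos (2 * Real.pi * (y + α) * x)) α]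
    refine integral_congr_ae (ae_of_all _ fun y => ?_)
    simp only [sub_add_cancel]
  rw [e0]
  have e1 : ∀ y : ℝ, L * Real.exp (-(2 * L * |y|)) * Real.cos (2 * Real.pi * (y + α) * x) =
      Real.cos (2 * Real.pi * α * x) *
        (L * Real.exp (-(2 * L * |y|)) * Real.cos (2 * Real.pi * x * y)) -
      Real.sin (2 * Real.pi * α * x) *
        (L * Real.exp (-(2 * L * |y|)) * Real.sin (2 * Real.pi * x * y)) := by
    intro y
    rw [show 2 * Real.pi * (y + α) * x = 2 * Real.pi * x * y + 2 * Real.pi * α * x by ring,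
      Real.cos_add]
    ring
  simp_rw [e1]
  rw [integral_sub ((iC _).const_mul _) ((iS _).const_mul _), integral_const_mul,
    integral_const_mul, hC, hS]
  ring

/-- the transform of the pair measure -/
noncomputable def qm (T y : ℝ) : ℝ := ∫ x, Real.cos (2 * Real.pi * y * x) ∂(Mp T)

lemma qm_nonneg {T : ℝ} (hT : 10 ≤ T) (y : ℝ) : 0 ≤ qm T y := by
  have hn := nT_pos hT
  unfold qm
  rw [Mp_integral hT (fun x => Real.cos (2 * Real.pi * y * x))]
  refine div_nonneg ?_ hn.le
  unfold RR
  have h := sq_form (ZZ T) mm (fun s : ℂ => s.im) (y * Real.log T)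
  refine h.trans (le_of_eq ?_)
  refine Finset.sum_congr rfl fun s _ => Finset.sum_congr rfl fun s' _ => ?_
  have hpi := Real.pi_pos
  congr 2
  field_simp

lemma qm_cont (T : ℝ) : Continuous (qm T) := by
  have := Mp_fin T
  unfold qm
  refine continuous_of_dominated (bound := fun _ => (1 : ℝ)) ?_ ?_ (integrable_const _) ?_
  · intro α
    exact Continuous.aestronglyMeasurable (by fun_prop)
  · intro α
    refine ae_of_all _ fun x => ?_
    rw [Real.norm_eq_abs]
    exact Real.abs_cos_le_one _
  · refine ae_of_all _ fun x => ?_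
    fun_prop

lemma qm_le (T y : ℝ) : |qm T y| ≤ (Mp T).real univ := by
  have := Mp_fin T
  unfold qm
  have h := norm_integral_le_of_norm_le_const (μ := Mp T) (C := 1)
    (f := fun x => Real.cos (2 * Real.pi * y * x)) (ae_of_all _ fun x => by
      rw [Real.norm_eq_abs]; exact Real.abs_cos_le_one _)
  rw [Real.norm_eq_abs] at h
  simpa using h

/-- Montgomery's function as an average -/
lemma Fr_avg {T : ℝ} (hT : 10 ≤ T) (α : ℝ) :
    Fr T α = ∫ y, Real.log T * Real.exp (-(2 * Real.log T * |y - α|)) * qm T y := by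
  have hL : 0 < Real.log T := by
    have := one_lt_log (show 3 ≤ T by linarith)
    linarith
  have hf := Mp_fin T
  have hs := Mp_sfin T
  unfold qm
  have e1 : ∀ y : ℝ, Real.log T * Real.exp (-(2 * Real.log T * |y - α|)) *
      ∫ x, Real.cos (2 * Real.pi * y * x) ∂(Mp T) =
      ∫ x, Real.log T * Real.exp (-(2 * Real.log T * |y - α|)) *
        Real.cos (2 * Real.pi * y * x) ∂(Mp T) := fun y => (integral_const_mul _ _).symm
  simp_rw [e1]
  rw [integral_integral_swap]
  · unfold Fr
    refine integral_congr_ae (ae_of_all _ fun x => ?_)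
    simp only
    rw [ker_cos hL]
  · have h1 : Integrable (fun p : ℝ × ℝ =>
        (Real.log T * Real.exp (-(2 * Real.log T * |p.1 - α|))) * (1 : ℝ))
        (volume.prod (Mp T)) := (ker_int hL α).mul_prod (integrable_const (1 : ℝ))
    simp only [mul_one] at h1
    refine Integrable.mul_bdd (c := 1) h1 ?_ (ae_of_all _ fun p => ?_)
    · apply Continuous.aestronglyMeasurable
      fun_prop
    · rw [Real.norm_eq_abs]
      exact Real.abs_cos_le_one _

/-- **Harnack's inequality** -/
theorem harnack {T : ℝ} (hT : 10 ≤ T) (α β : ℝ) :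
    Real.exp (-(2 * Real.log T * |β - α|)) * Fr T α ≤ Fr T β := by
  have hL : 0 < Real.log T := by
    have := one_lt_log (show 3 ≤ T by linarith)
    linarith
  rw [Fr_avg hT α, Fr_avg hT β, ← integral_const_mul]
  have hI : ∀ a : ℝ, Integrable fun y => Real.log T * Real.exp (-(2 * Real.log T * |y - a|)) *
      qm T y := fun a => Integrable.mul_bdd (c := (Mp T).real univ) (ker_int hL a)
        (qm_cont T).aestronglyMeasurable (ae_of_all _ fun y => by
          rw [Real.norm_eq_abs]; exact qm_le T y)
  refine integral_mono ((hI α).const_mul _) (hI β) fun y => ?_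
  simp only
  have h0 := qm_nonneg hT y
  have h1 : Real.exp (-(2 * Real.log T * |β - α|)) * Real.exp (-(2 * Real.log T * |y - α|)) ≤
      Real.exp (-(2 * Real.log T * |y - β|)) := by
    rw [← Real.exp_add]
    apply Real.exp_le_exp.2
    have h2 : |y - β| ≤ |y - α| + |β - α| := by
      have := abs_sub_le y α β
      rw [abs_sub_comm α β] at this
      exact this
    have h3 := mul_le_mul_of_nonneg_left h2 (show 0 ≤ 2 * Real.log T by positivity)
    linarith
  calc Real.exp (-(2 * Real.log T * |β - α|)) *
        (Real.log T * Real.exp (-(2 * Real.log T * |y - α|)) * qm T y) =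
      Real.log T * qm T y * (Real.exp (-(2 * Real.log T * |β - α|)) *
        Real.exp (-(2 * Real.log T * |y - α|))) := by ring
    _ ≤ Real.log T * qm T y * Real.exp (-(2 * Real.log T * |y - β|)) :=
        mul_le_mul_of_nonneg_left h1 (by positivity)
    _ = _ := by ring

/-- the values of Montgomery's function are bounded by the masses -/
theorem val_mass {T : ℝ} (hT : 10 ≤ T) {s : ℝ} (hs : 0 < s) (c : ℝ) :
    (1 - Real.exp (-(2 * Real.log T * s))) * Fr T c ≤
      Real.log T * ∫ α in (c - s)..(c + s), Fr T α := by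
  have hL : 0 < Real.log T := by
    have := one_lt_log (show 3 ≤ T by linarith)
    linarith
  have hFc := Fr_cont T
  have ci : ∀ {g : ℝ → ℝ}, Continuous g → ∀ p q : ℝ, IntervalIntegrable g volume p q :=
    fun hg p q => hg.intervalIntegrable p q
  have e1 : ∫ u in (0 : ℝ)..s, Real.exp (-(2 * Real.log T * u)) =
      (1 - Real.exp (-(2 * Real.log T * s))) / (2 * Real.log T) := by
    have h1 : ∀ u : ℝ, Real.exp (-(2 * Real.log T * u)) =
        Real.exp (-(2 * Real.log T) * u) := by
      intro u
      congr 1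
      ring
    have h2 : -(2 * Real.log T) ≠ 0 := by
      have : 0 < 2 * Real.log T := by positivity
      linarith
    simp_rw [h1]
    rw [intervalIntegral.integral_comp_mul_left (fun x => Real.exp x) h2, integral_exp,
      mul_zero, Real.exp_zero, smul_eq_mul]
    field_simp
    ring
  have r1 : (1 - Real.exp (-(2 * Real.log T * s))) / (2 * Real.log T) * Fr T c ≤
      ∫ α in c..(c + s), Fr T α := by
    rw [← e1, ← intervalIntegral.integral_mul_const]
    have h2 : ∫ α in c..(c + s), Fr T α = ∫ u in (0 : ℝ)..s, Fr T (u + c) := by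
      rw [intervalIntegral.integral_comp_add_right (fun u => Fr T u) c]
      rw [zero_add, add_comm]
    rw [h2]
    refine intervalIntegral.integral_mono_on hs.le (ci (by fun_prop) _ _) (ci (by fun_prop) _ _)
      fun u hu => ?_
    have h3 := harnack hT c (u + c)
    rwa [add_sub_cancel_right, abs_of_nonneg hu.1] at h3
  have r2 : (1 - Real.exp (-(2 * Real.log T * s))) / (2 * Real.log T) * Fr T c ≤
      ∫ α in (c - s)..c, Fr T α := by
    rw [← e1, ← intervalIntegral.integral_mul_const]
    have h2 : ∫ α in (c - s)..c, Fr T α = ∫ u in (0 : ℝ)..s, Fr T (c - u) := by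
      rw [intervalIntegral.integral_comp_sub_left (fun u => Fr T u) c]
      rw [sub_zero]
    rw [h2]
    refine intervalIntegral.integral_mono_on hs.le (ci (by fun_prop) _ _) (ci (by fun_prop) _ _)
      fun u hu => ?_
    have h3 := harnack hT c (c - u)
    rwa [sub_sub_cancel_left, abs_neg, abs_of_nonneg hu.1] at h3
  have r3 := intervalIntegral.integral_add_adjacent_intervals (ci hFc (c - s) c) (ci hFc c (c + s))
  rw [← r3]
  have r4 := add_le_add r2 r1
  have r5 := mul_le_mul_of_nonneg_left r4 hL.le
  have e2 : Real.log T * ((1 - Real.exp (-(2 * Real.log T * s))) / (2 * Real.log T) * Fr T c +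
      (1 - Real.exp (-(2 * Real.log T * s))) / (2 * Real.log T) * Fr T c) =
      (1 - Real.exp (-(2 * Real.log T * s))) * Fr T c := by
    field_simp
    ring
  rw [e2] at r5
  exact r5

end Pool.Agent.U252.LV
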