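import Pool.Agent.U252.LV.B

/-! # Bessel's inequality for the masses and the values of Montgomery's function -/

set_option autoImplicit false

open MeasureTheory Set Filter Topology

namespace Pool.Agent.U252.LV

open Pool.Agent.Y749.Rig

/-- the pairing with the tent at `c` -/
noncomputable def tt (h T c : ℝ) : ℝ := ∫ α, tr h (α - c) * Fr T α

/-- the weight of the tents -/
noncomputable def pw (h T x : ℝ) : ℝ := fl (tr h) x * ww (2 * Real.pi * x / Real.log T)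

lemma pw_cont {h : ℝ} (hh : 0 < h) (T : ℝ) : Continuous (pw h T) := by
  have h1 := fl_cont (tr_int hh)
  have h2 := ww_cont
  unfold pw
  fun_prop

lemma pw_nonneg {h : ℝ} (hh : 0 < h) (T x : ℝ) : 0 ≤ pw h T x :=
  mul_nonneg (fl_tr_nonneg hh x) (ww_pos _).le

lemma pw_le {h : ℝ} (hh : 0 < h) (T x : ℝ) : pw h T x ≤ 1 := by
  have h1 := Pool.Agent.Y749.AH.fl_tr_le hh x
  have h2 := ww_le (2 * Real.pi * x / Real.log T)
  have h3 := (ww_pos (2 * Real.pi * x / Real.log T)).le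
  have h4 := fl_tr_nonneg hh x
  unfold pw
  nlinarith

lemma tt_eq {h : ℝ} (hh : 0 < h) (T c : ℝ) : tt h T c = KK (Mp T) (pw h T) c := by
  unfold tt KK pw
  rw [← Pool.Agent.Y749.AH.modu_pair (adm_tr hh) T, Fr_pair (adm_modu (adm_tr hh) c).int]
  refine integral_congr_ae (ae_of_all _ fun x => ?_)
  simp only
  rw [fl_modu (adm_tr hh)]
  ring

lemma Fr_eq (T α : ℝ) : Fr T α = KK (Mp T) (fun x => ww (2 * Real.pi * x / Real.log T)) α := by
  unfold Fr KK
  refine integral_congr_ae (ae_of_all _ fun x => ?_)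
  simp only
  ring

lemma tt_neg {h : ℝ} (hh : 0 < h) (T c : ℝ) : tt h T (-c) = tt h T c := by
  rw [tt_eq hh, tt_eq hh, KK_neg]

lemma tt_abs {h : ℝ} (hh : 0 < h) (T c : ℝ) : tt h T |c| = tt h T c := by
  rcases abs_choice c with h1 | h1
  · rw [h1]
  · rw [h1, tt_neg hh]

lemma tt_nonneg {h : ℝ} (hh : 0 < h) {T : ℝ} (hT : 10 ≤ T) (c : ℝ) : 0 ≤ tt h T c :=
  integral_nonneg fun α => mul_nonneg (tr_nonneg hh _) (Fr_nonneg hT α)

theorem Fr_sel (T : ℝ) {ι : Type*} (s : Finset ι) (y c : ι → ℝ) :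
    (∑ i ∈ s, y i * Fr T (c i)) ^ 2 ≤
      Fr T 0 * ∑ i ∈ s, ∑ j ∈ s, y i * y j * Fr T (c i - c j) := by
  have := Mp_fin T
  simp_rw [Fr_eq]
  exact sel (by have := ww_cont; fun_prop) (fun x => (ww_pos _).le) (fun x => ww_le _) s y c

theorem tt_sel {h : ℝ} (hh : 0 < h) (T : ℝ) {ι : Type*} (s : Finset ι) (y c : ι → ℝ) :
    (∑ i ∈ s, y i * tt h T (c i)) ^ 2 ≤
      tt h T 0 * ∑ i ∈ s, ∑ j ∈ s, y i * y j * tt h T (c i - c j) := by
  have := Mp_fin T
  simp_rw [tt_eq hh]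
  exact sel (pw_cont hh T) (pw_nonneg hh T) (pw_le hh T) s y c

lemma KK_le {μ : Measure ℝ} [IsFiniteMeasure μ] {p : ℝ → ℝ} (hp : Continuous p)
    (h0 : ∀ x, 0 ≤ p x) (h1 : ∀ x, p x ≤ 1) (c : ℝ) : KK μ p c ≤ KK μ p 0 := by
  refine integral_mono (int_cos hp h0 h1 c) (int_cos hp h0 h1 0) fun x => ?_
  simp only
  rw [mul_zero, zero_mul, Real.cos_zero]
  exact mul_le_mul_of_nonneg_left (Real.cos_le_one _) (h0 x)

lemma tt_le_zero {h : ℝ} (hh : 0 < h) (T c : ℝ) : tt h T c ≤ tt h T 0 := by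
  have := Mp_fin T
  rw [tt_eq hh, tt_eq hh]
  exact KK_le (pw_cont hh T) (pw_nonneg hh T) (pw_le hh T) c

lemma tt_int {h : ℝ} (hh : 0 < h) (T c : ℝ) : Integrable fun α => tr h (α - c) * Fr T α := by
  have hFc := Fr_cont T
  have htc := tr_cont h
  refine Continuous.integrable_of_hasCompactSupport (by fun_prop) ?_
  have : HasCompactSupport fun α => tr h (α - c) :=
    (adm_tr hh).hcs.comp_homeomorph (Homeomorph.subRight c)
  exact this.mul_right

/-- a tent is majorised by a neighbouring wider tent -/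
lemma tt_wide {h : ℝ} (hh : 0 < h) {T : ℝ} (hT : 10 ≤ T) {c c' : ℝ} (hc : |c - c'| ≤ h) :
    tt h T c ≤ 4 * tt (2 * h) T c' := by
  have h2 : 0 < 2 * h := by positivity
  unfold tt
  rw [← integral_const_mul]
  refine integral_mono (tt_int hh T c) ((tt_int h2 T c').const_mul 4) fun α => ?_
  simp only
  rw [← mul_assoc]
  refine mul_le_mul_of_nonneg_right ?_ (Fr_nonneg hT α)
  unfold tr
  have h3 : |α - c'| ≤ |α - c| + |c - c'| := abs_sub_le α c c'
  have h4 : 4 * (max 0 (1 - |α - c'| / (2 * h)) / (2 * h)) = max 0 (2 - |α - c'| / h) / h := by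
    have : max 0 (2 - |α - c'| / h) = 2 * max 0 (1 - |α - c'| / (2 * h)) := by
      rw [mul_max_of_nonneg _ _ (by norm_num : (0 : ℝ) ≤ 2), mul_zero]
      congr 1
      field_simp
    rw [this]
    field_simp
    norm_num
  rw [h4]
  refine div_le_div_of_nonneg_right ?_ hh.le
  refine max_le_max le_rfl ?_
  have h5 : |α - c'| / h ≤ |α - c| / h + 1 := by
    rw [div_add_one hh.ne']
    exact div_le_div_of_nonneg_right (by linarith) hh.le
  linarith

/-- **uniform bound** in the known range -/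
lemma tt_unif (RH : RiemannHypothesis) {κ h : ℝ} (hκ : 0 < κ) (hh : 0 < h) (h4 : 4 * h ≤ κ) :
    ∀ᶠ T in atTop, ∀ d : ℝ, κ ≤ |d| → |d| ≤ 1 - κ → tt h T d ≤ 8 := by
  obtain ⟨t, ht, hcov⟩ := (isCompact_Icc (a := κ) (b := 1 - κ)).elim_nhds_subcover
    (fun x => Metric.ball x h) (fun x _ => Metric.ball_mem_nhds x hh)
  have hev : ∀ᶠ T in atTop, ∀ c' ∈ t, tt (2 * h) T c' ≤ 2 := by
    rw [Filter.eventually_all_finset]
    intro c' hc'
    have h1 := ht c' hc'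
    have h2 : |c'| = c' := abs_of_nonneg (hκ.le.trans h1.1)
    have h3 := Pool.Agent.Y749.AH.tent_lim RH (h := 2 * h) (c := c') (by positivity)
      (by rw [h2]; linarith [h1.1]) (by rw [h2]; linarith [h1.2])
    rw [h2] at h3
    exact h3.eventually_le_const (by linarith [h1.2])
  filter_upwards [hev, eventually_ge_atTop 10] with T hT1 hT d hd1 hd2
  obtain ⟨c', hc', hb⟩ := mem_iUnion₂.1 (hcov (show |d| ∈ Icc κ (1 - κ) from ⟨hd1, hd2⟩))
  rw [Metric.mem_ball, Real.dist_eq] at hb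
  have h1 := tt_wide hh hT hb.le
  rw [tt_abs hh] at h1
  linarith [hT1 c' hc']

/-- the number of the frequencies is bounded -/
lemma card_le {κ : ℝ} (hκ : 0 < κ) (C : Finset ℝ)
    (hC : ∀ c ∈ C, ∀ c' ∈ C, c ≠ c' → κ ≤ |c - c'| ∧ |c - c'| ≤ 1 - κ) :
    (C.card : ℝ) ≤ 2 / κ + 4 := by
  rcases C.eq_empty_or_nonempty with rfl | ⟨c0, hc0⟩
  · simp only [Finset.card_empty, Nat.cast_zero]
    positivity
  have hmem : ∀ c ∈ C, ⌊(c - c0) / κ⌋ ∈ Finset.Icc (-⌈1 / κ⌉ - 1) ⌈1 / κ⌉ := by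
    intro c hc
    have h1 : |c - c0| ≤ 1 := by
      rcases eq_or_ne c c0 with h | h
      · rw [h, sub_self, abs_zero]; norm_num
      · linarith [(hC c hc c0 hc0 h).2]
    obtain ⟨h2, h3⟩ := abs_le.1 h1
    rw [Finset.mem_Icc]
    have h4 : (1 : ℝ) / κ ≤ ⌈1 / κ⌉ := Int.le_ceil _
    constructor
    · rw [Int.le_floor]
      push_cast
      have h5 : -(1 / κ) ≤ (c - c0) / κ := by
        rw [← neg_div]
        exact div_le_div_of_nonneg_right h2 hκ.le
      linarith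
    · have h5 : (c - c0) / κ ≤ 1 / κ := div_le_div_of_nonneg_right h3 hκ.le
      have h6 : (⌊(c - c0) / κ⌋ : ℝ) ≤ ⌈1 / κ⌉ := (Int.floor_le _).trans (h5.trans h4)
      exact_mod_cast h6
  have hinj : Set.InjOn (fun c : ℝ => ⌊(c - c0) / κ⌋) (C : Set ℝ) := by
    intro c hc c' hc' he
    by_contra hne
    have h1 := (hC c hc c' hc' hne).1
    have h2 := Int.abs_sub_lt_one_of_floor_eq_floor he
    have h3 : (c - c0) / κ - (c' - c0) / κ = (c - c') / κ := by ring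
    rw [h3, abs_div, abs_of_pos hκ, div_lt_one hκ] at h2
    linarith
  have h1 := Finset.card_le_card_of_injOn (fun c : ℝ => ⌊(c - c0) / κ⌋) hmem hinj
  rw [Int.card_Icc] at h1
  have h2 : ((⌈1 / κ⌉ + 1 - (-⌈1 / κ⌉ - 1)).toNat : ℝ) = 2 * ⌈1 / κ⌉ + 2 := by
    have h3 : (0 : ℤ) ≤ ⌈1 / κ⌉ := Int.ceil_nonneg (by positivity)
    have h4 : ((⌈1 / κ⌉ + 1 - (-⌈1 / κ⌉ - 1)).toNat : ℤ) = 2 * ⌈1 / κ⌉ + 2 := by
      rw [Int.toNat_of_nonneg (by linarith)]
      ring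
    exact_mod_cast h4
  have h3 : (C.card : ℝ) ≤ 2 * ⌈1 / κ⌉ + 2 := by
    rw [← h2]
    exact_mod_cast h1
  have h4 : (⌈1 / κ⌉ : ℝ) < 1 / κ + 1 := Int.ceil_lt_add_one _
  have h5 : 2 / κ = 2 * (1 / κ) := by ring
  linarith

/-- the value at the origin -/
lemma tt_zero (RH : RiemannHypothesis) {h : ℝ} (hh : 0 < h) (h1 : h < 1) {η : ℝ} (hη : 0 < η) :
    ∀ᶠ T in atTop, tt h T 0 ≤ 1 / h + h + η := by
  have h2 := Fr_lim (tr_int hh) (fl_qd (adm_tr hh)) le_rfl (test_limRH RH (adm_tr hh) hh h1)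
  have h3 := (Pool.Agent.Y749.AH.cc_tr_le hh).1
  filter_upwards [h2.eventually_le_const (show cc (tr h) < 1 / h + h + η by linarith)] with T hT
  unfold tt
  simpa using hT

/-- the algebra of Bessel's inequality -/
lemma alg {C : Finset ℝ} {g : ℝ → ℝ} {h M N : ℝ} (hh : 0 < h) (hg : ∀ c, 0 ≤ g c)
    (hM : h * g 0 ≤ M) (hN : (C.card : ℝ) ≤ N)
    (h8 : ∀ c ∈ C, ∀ c' ∈ C, c ≠ c' → g (c - c') ≤ 8)
    (hsel : (∑ c ∈ C, (h * g c) * g c) ^ 2 ≤
      g 0 * ∑ c ∈ C, ∑ c' ∈ C, (h * g c) * (h * g c') * g (c - c')) :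
    ∑ c ∈ C, (h * g c) ^ 2 ≤ M * (M + 8 * h * N) := by
  obtain ⟨S, hS⟩ : ∃ S : ℝ, S = ∑ c ∈ C, (h * g c) ^ 2 := ⟨_, rfl⟩
  have hS0 : 0 ≤ S := by rw [hS]; positivity
  have hM0 : 0 ≤ M := (mul_nonneg hh.le (hg 0)).trans hM
  have hN0 : 0 ≤ N := (Nat.cast_nonneg _).trans hN
  have e1 : ∑ c ∈ C, (h * g c) * g c = S / h := by
    rw [hS, Finset.sum_div]
    refine Finset.sum_congr rfl fun c _ => ?_
    field_simp
  have e2 : ∑ c ∈ C, ∑ c' ∈ C, (h * g c) * (h * g c') * g (c - c') ≤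
      (M / h + 8 * N) * S := by
    have e3 : ∀ c ∈ C, ∀ c' ∈ C, (h * g c) * (h * g c') * g (c - c') ≤
        (if c = c' then (h * g c) ^ 2 * (M / h) else 0) + 8 * ((h * g c) * (h * g c')) := by
      intro c hc c' hc'
      have p1 : 0 ≤ (h * g c) * (h * g c') :=
        mul_nonneg (mul_nonneg hh.le (hg c)) (mul_nonneg hh.le (hg c'))
      split_ifs with heq
      · subst heq
        rw [sub_self]
        have h5 : g 0 ≤ M / h := by rw [le_div_iff₀ hh]; linarith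
        have h6 : (h * g c) * (h * g c) * g 0 ≤ (h * g c) * (h * g c) * (M / h) :=
          mul_le_mul_of_nonneg_left h5 p1
        nlinarith
      · have h5 := mul_le_mul_of_nonneg_left (h8 c hc c' hc' heq) p1
        linarith
    refine (Finset.sum_le_sum fun c hc => Finset.sum_le_sum fun c' hc' => e3 c hc c' hc').trans ?_
    have e4 : ∑ c ∈ C, ∑ c' ∈ C, ((if c = c' then (h * g c) ^ 2 * (M / h) else 0) +
        8 * ((h * g c) * (h * g c'))) = S * (M / h) + 8 * (∑ c ∈ C, h * g c) ^ 2 := by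
      simp_rw [Finset.sum_add_distrib]
      congr 1
      · rw [hS, Finset.sum_mul]
        refine Finset.sum_congr rfl fun c hc => ?_
        rw [Finset.sum_ite_eq, if_pos hc]
      · rw [sq, Finset.sum_mul_sum, Finset.mul_sum]
        refine Finset.sum_congr rfl fun c _ => ?_
        rw [Finset.mul_sum]
    rw [e4]
    have e5 : (∑ c ∈ C, h * g c) ^ 2 ≤ N * S := by
      have h5 := sq_sum_le_card_mul_sum_sq (s := C) (f := fun c => h * g c)
      rw [← hS] at h5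
      exact h5.trans (mul_le_mul_of_nonneg_right hN hS0)
    nlinarith
  rw [e1] at hsel
  have h9 : (S / h) ^ 2 ≤ M / h * ((M / h + 8 * N) * S) := by
    refine hsel.trans ?_
    have h5 : g 0 ≤ M / h := by rw [le_div_iff₀ hh]; linarith
    refine (mul_le_mul_of_nonneg_left e2 (hg 0)).trans ?_
    exact mul_le_mul_of_nonneg_right h5 (by positivity)
  have h10 : S * S ≤ (M * (M + 8 * h * N)) * S := by
    have e6 : (S / h) ^ 2 * h ^ 2 = S * S := by field_simp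
    have e7 : M / h * ((M / h + 8 * N) * S) * h ^ 2 = (M * (M + 8 * h * N)) * S := by
      field_simp
    rw [← e6, ← e7]
    exact mul_le_mul_of_nonneg_right h9 (by positivity)
  rw [← hS]
  rcases hS0.eq_or_lt with h0 | h0
  · rw [← h0]; positivity
  · exact le_of_mul_le_mul_right h10 h0

/-- **Bessel's inequality for the masses** -/
theorem bessel (RH : RiemannHypothesis) {κ ε : ℝ} (hκ : 0 < κ) (hε : 0 < ε) :
    ∃ s : ℝ, 0 < s ∧ ∀ᶠ T in atTop, ∀ C : Finset ℝ,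
      (∀ c ∈ C, ∀ c' ∈ C, c ≠ c' → κ ≤ |c - c'| ∧ |c - c'| ≤ 1 - κ) →
      ∑ c ∈ C, (∫ α in (c - s)..(c + s), Fr T α) ^ 2 ≤ 1 + ε := by
  obtain ⟨N, hN⟩ : ∃ N : ℝ, N = 2 / κ + 4 := ⟨_, rfl⟩
  obtain ⟨φ, hφ⟩ : ∃ φ : ℝ → ℝ, ∀ h, φ h = (1 + 2 * h ^ 2) * (1 + 2 * h ^ 2 + 8 * h * N) /
    (1 - h) ^ 2 := ⟨_, fun h => rfl⟩
  have hφc : ContinuousAt φ 0 := by
    have : φ = fun h => (1 + 2 * h ^ 2) * (1 + 2 * h ^ 2 + 8 * h * N) / (1 - h) ^ 2 := funext hφ
    rw [this]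
    refine ContinuousAt.div (by fun_prop) (by fun_prop) (by norm_num)
  have hφ0 : φ 0 < 1 + ε := by rw [hφ]; norm_num; exact hε
  obtain ⟨δ, hδ, hδφ⟩ := Metric.eventually_nhds_iff.1 (hφc.eventually_lt_const hφ0)
  obtain ⟨h, hh⟩ : ∃ h : ℝ, h = min (δ / 2) (min (κ / 4) (1 / 2)) := ⟨_, rfl⟩
  have hh0 : 0 < h := by rw [hh]; exact lt_min (by positivity) (lt_min (by positivity) (by norm_num))
  have hh1 : h ≤ δ / 2 := by rw [hh]; exact min_le_left _ _
  have hh2 : h ≤ κ / 4 := by rw [hh]; exact (min_le_right _ _).trans (min_le_left _ _)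
  have hh3 : h ≤ 1 / 2 := by rw [hh]; exact (min_le_right _ _).trans (min_le_right _ _)
  have hφh := hδφ (show dist h 0 < δ by rw [Real.dist_eq, sub_zero, abs_of_pos hh0]; linarith)
  refine ⟨h ^ 2, by positivity, ?_⟩
  filter_upwards [tt_unif RH hκ hh0 (by linarith), tt_zero RH hh0 (by linarith) hh0,
    eventually_ge_atTop 10] with T g1 g2 hT C hC
  have a1 : h * tt h T 0 ≤ 1 + 2 * h ^ 2 := by
    have := mul_le_mul_of_nonneg_left g2 hh0.le
    have e : h * (1 / h + h + h) = 1 + 2 * h ^ 2 := by field_simp; ring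
    linarith
  have a2 := alg (C := C) (g := tt h T) (N := N) hh0 (tt_nonneg hh0 hT) a1
    (by rw [hN]; exact card_le hκ C hC)
    (fun c hc c' hc' hne => g1 _ (hC c hc c' hc' hne).1 (hC c hc c' hc' hne).2)
    (tt_sel hh0 T C (fun c => h * tt h T c) (fun c => c))
  have a3 : ∀ c, (∫ α in (c - h ^ 2)..(c + h ^ 2), Fr T α) ≤ h * tt h T c / (1 - h) := by
    intro c
    have h5 := Pool.Agent.Y749.AH.tent_low (θ := c) (δ := h ^ 2) hh0 (by positivity)
      (by nlinarith) hT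
    have e : (1 - h ^ 2 / h) / h = (1 - h) / h := by field_simp
    rw [e] at h5
    rw [le_div_iff₀ (by linarith)]
    have h6 := mul_le_mul_of_nonneg_left h5 hh0.le
    have e2 : h * ((1 - h) / h * ∫ α in (c - h ^ 2)..(c + h ^ 2), Fr T α) =
        (∫ α in (c - h ^ 2)..(c + h ^ 2), Fr T α) * (1 - h) := by field_simp
    rw [e2] at h6
    exact h6
  have a4 : ∀ c, 0 ≤ ∫ α in (c - h ^ 2)..(c + h ^ 2), Fr T α := fun c =>
    intervalIntegral.integral_nonneg (by nlinarith [sq_nonneg h]) fun α _ => Fr_nonneg hT α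
  calc ∑ c ∈ C, (∫ α in (c - h ^ 2)..(c + h ^ 2), Fr T α) ^ 2 ≤
        ∑ c ∈ C, (h * tt h T c / (1 - h)) ^ 2 :=
        Finset.sum_le_sum fun c _ => pow_le_pow_left₀ (a4 c) (a3 c) 2
    _ = (∑ c ∈ C, (h * tt h T c) ^ 2) / (1 - h) ^ 2 := by
        rw [Finset.sum_div]
        exact Finset.sum_congr rfl fun c _ => div_pow _ _ _
    _ ≤ (1 + 2 * h ^ 2) * (1 + 2 * h ^ 2 + 8 * h * N) / (1 - h) ^ 2 :=
        div_le_div_of_nonneg_right a2 (by positivity)
    _ ≤ 1 + ε := by rw [← hφ]; exact hφh.le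

/-- the values and the masses -/
lemma val_le {s ε : ℝ} (hs : 0 < s) (hε : 0 < ε) : ∀ᶠ T in atTop, ∀ c : ℝ,
    Fr T c ≤ (1 + ε) * Real.log T * ∫ α in (c - s)..(c + s), Fr T α := by
  have h1 : Tendsto (fun T : ℝ => Real.exp (-(2 * Real.log T * s))) atTop (𝓝 0) := by
    refine Real.tendsto_exp_atBot.comp ?_
    refine tendsto_neg_atTop_atBot.comp ?_
    exact (Real.tendsto_log_atTop.const_mul_atTop (by norm_num : (0 : ℝ) < 2)).atTop_mul_const hs
  filter_upwards [h1.eventually_le_const (show (0 : ℝ) < ε / (1 + ε) by positivity),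
    eventually_ge_atTop 10] with T g1 hT c
  have hL : 0 < Real.log T := by
    have := one_lt_log (show 3 ≤ T by linarith)
    linarith
  have h2 := val_mass hT hs c
  have h3 := Fr_nonneg hT c
  have h4 : 1 / (1 + ε) ≤ 1 - Real.exp (-(2 * Real.log T * s)) := by
    have : 1 / (1 + ε) = 1 - ε / (1 + ε) := by field_simp; ring
    linarith
  have h5 : 1 / (1 + ε) * Fr T c ≤ Real.log T * ∫ α in (c - s)..(c + s), Fr T α :=
    (mul_le_mul_of_nonneg_right h4 h3).trans h2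
  have h6 := mul_le_mul_of_nonneg_left h5 (show 0 ≤ 1 + ε by positivity)
  have e : (1 + ε) * (1 / (1 + ε) * Fr T c) = Fr T c := by field_simp
  rw [e] at h6
  linarith

/-- **Bessel's inequality for the values** -/
theorem bessel_val (RH : RiemannHypothesis) {κ ε : ℝ} (hκ : 0 < κ) (hε : 0 < ε) :
    ∀ᶠ T in atTop, ∀ C : Finset ℝ,
      (∀ c ∈ C, ∀ c' ∈ C, c ≠ c' → κ ≤ |c - c'| ∧ |c - c'| ≤ 1 - κ) →
      ∑ c ∈ C, (Fr T c) ^ 2 ≤ (1 + ε) * (Real.log T) ^ 2 := by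
  obtain ⟨e, he⟩ : ∃ e : ℝ, e = min 1 (ε / 7) := ⟨_, rfl⟩
  have he0 : 0 < e := by rw [he]; exact lt_min one_pos (by positivity)
  have he1 : e ≤ 1 := by rw [he]; exact min_le_left _ _
  have he2 : e ≤ ε / 7 := by rw [he]; exact min_le_right _ _
  obtain ⟨s, hs, h1⟩ := bessel RH hκ he0
  filter_upwards [h1, val_le hs he0, eventually_ge_atTop 10] with T g1 g2 hT C hC
  have hF := Fr_nonneg hT
  calc ∑ c ∈ C, (Fr T c) ^ 2 ≤
        ∑ c ∈ C, ((1 + e) * Real.log T * ∫ α in (c - s)..(c + s), Fr T α) ^ 2 :=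
        Finset.sum_le_sum fun c _ => pow_le_pow_left₀ (hF c) (g2 c) 2
    _ = ((1 + e) * Real.log T) ^ 2 * ∑ c ∈ C, (∫ α in (c - s)..(c + s), Fr T α) ^ 2 := by
        rw [Finset.mul_sum]
        exact Finset.sum_congr rfl fun c _ => mul_pow _ _ _
    _ ≤ ((1 + e) * Real.log T) ^ 2 * (1 + e) :=
        mul_le_mul_of_nonneg_left (g1 C hC) (by positivity)
    _ = ((1 + e) ^ 2 * (1 + e)) * (Real.log T) ^ 2 := by ring
    _ ≤ (1 + ε) * (Real.log T) ^ 2 := by
        refine mul_le_mul_of_nonneg_right ?_ (by positivity)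
        nlinarith [sq_nonneg e, mul_nonneg he0.le he0.le]

end Pool.Agent.U252.LV
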