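import Pool.Agent.U252.LV.C

/-! # Explicit bounds beyond one -/

set_option autoImplicit false

open MeasureTheory Set Filter Topology

namespace Pool.Agent.U252.LV

open Pool.Agent.Y749.Rig

theorem tt_odd {h : ℝ} (hh : 0 < h) (T c : ℝ) (K : ℕ) :
    (∑ k ∈ Finset.range K, ((k : ℝ) + 1) *
      (2 * (tt h T (c / 2 - (k + 1) * h) - tt h T (c / 2 + (k + 1) * h)))) ^ 2 ≤
    (2 * (tt h T 0 - tt h T c)) *
      ∑ j ∈ Finset.range K, ∑ k ∈ Finset.range K, ((j : ℝ) + 1) * ((k : ℝ) + 1) *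
        (2 * (tt h T (((j : ℝ) - k) * h) - tt h T (((j : ℝ) + k + 2) * h))) := by
  have := Mp_fin T
  simp_rw [tt_eq hh]
  exact odd (pw_cont hh T) (pw_nonneg hh T) (pw_le hh T) c h K

/-- the limits at the known points -/
lemma tt_lim (RH : RiemannHypothesis) {h c : ℝ} (hh : 0 < h) (hc : h ≤ |c|)
    (hc1 : |c| + h < 1) : Tendsto (fun T => tt h T c) atTop (𝓝 |c|) :=
  Pool.Agent.Y749.AH.tent_lim RH hh hc hc1

lemma tt_lim0 (RH : RiemannHypothesis) {h : ℝ} (hh : 0 < h) (h1 : h < 1) :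
    Tendsto (fun T => tt h T 0) atTop (𝓝 (cc (tr h))) := by
  have h2 := Fr_lim (tr_int hh) (fl_qd (adm_tr hh)) le_rfl (test_limRH RH (adm_tr hh) hh h1)
  unfold tt
  simpa using h2

/-- **the bound for one tent** -/
theorem tent_bound (RH : RiemannHypothesis) {h c : ℝ} {K : ℕ} (hh : 0 < h) (hK : 1 ≤ K)
    (hc1 : 1 ≤ c) (hKc : ((K : ℝ) + 1) * h < 1 - c / 2) {η : ℝ} (hη : 0 < η) :
    ∀ᶠ T in atTop, h * tt h T c ≤ 1 + h ^ 2 -
      4 * h ^ 4 * (∑ k ∈ Finset.range K, ((k : ℝ) + 1) ^ 2) / (1 + h ^ 2) + η := by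
  have hK1 : (1 : ℝ) ≤ K := by exact_mod_cast hK
  have hKh : ((K : ℝ) + 1) * h < 1 / 2 := by linarith
  have hh1 : h < 1 / 4 := by nlinarith
  have hc2 : c < 2 := by nlinarith
  obtain ⟨S, hS⟩ : ∃ S : ℝ, S = ∑ k ∈ Finset.range K, ((k : ℝ) + 1) ^ 2 := ⟨_, rfl⟩
  have hS1 : 1 ≤ S := by
    rw [hS]
    have h1 : ((0 : ℕ) : ℝ) = 0 := Nat.cast_zero
    have h2 := Finset.single_le_sum (f := fun k : ℕ => ((k : ℝ) + 1) ^ 2)
      (fun k _ => by positivity) (Finset.mem_range.2 (show 0 < K by omega))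
    simpa using h2
  have hS0 : 0 < S := by linarith
  -- the limits
  have kb : ∀ k ∈ Finset.range K, ((k : ℝ) + 1) ≤ K := by
    intro k hk
    have := Finset.mem_range.1 hk
    exact_mod_cast this
  have l1 : Tendsto (fun T => ∑ k ∈ Finset.range K, ((k : ℝ) + 1) *
      (2 * (tt h T (c / 2 - (k + 1) * h) - tt h T (c / 2 + (k + 1) * h)))) atTop
      (𝓝 (∑ k ∈ Finset.range K, ((k : ℝ) + 1) *
      (2 * (|c / 2 - (k + 1) * h| - |c / 2 + (k + 1) * h|)))) := by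
    refine tendsto_finsetSum _ fun k hk => ?_
    have h1 := kb k hk
    have h2 : ((k : ℝ) + 1) * h ≤ K * h := mul_le_mul_of_nonneg_right h1 hh.le
    have h3 : 0 ≤ ((k : ℝ) + 1) * h := by positivity
    have p1 : |c / 2 - (k + 1) * h| = c / 2 - (k + 1) * h := abs_of_nonneg (by nlinarith)
    have p2 : |c / 2 + (k + 1) * h| = c / 2 + (k + 1) * h := abs_of_nonneg (by nlinarith)
    refine Tendsto.const_mul _ (Tendsto.const_mul _ (Tendsto.sub ?_ ?_))
    · exact tt_lim RH hh (by rw [p1]; nlinarith) (by rw [p1]; nlinarith)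
    · exact tt_lim RH hh (by rw [p2]; nlinarith) (by rw [p2]; nlinarith)
  have v1 : ∑ k ∈ Finset.range K, ((k : ℝ) + 1) *
      (2 * (|c / 2 - (k + 1) * h| - |c / 2 + (k + 1) * h|)) = -(4 * h * S) := by
    rw [hS, Finset.mul_sum, ← Finset.sum_neg_distrib]
    refine Finset.sum_congr rfl fun k hk => ?_
    have h1 := kb k hk
    have h2 : ((k : ℝ) + 1) * h ≤ K * h := mul_le_mul_of_nonneg_right h1 hh.le
    have h3 : 0 ≤ ((k : ℝ) + 1) * h := by positivity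
    have p1 : |c / 2 - (k + 1) * h| = c / 2 - (k + 1) * h := abs_of_nonneg (by nlinarith)
    have p2 : |c / 2 + (k + 1) * h| = c / 2 + (k + 1) * h := abs_of_nonneg (by nlinarith)
    rw [p1, p2]
    ring
  rw [v1] at l1
  have l2 : Tendsto (fun T => ∑ j ∈ Finset.range K, ∑ k ∈ Finset.range K,
      ((j : ℝ) + 1) * ((k : ℝ) + 1) *
        (2 * (tt h T (((j : ℝ) - k) * h) - tt h T (((j : ℝ) + k + 2) * h)))) atTop
      (𝓝 (∑ j ∈ Finset.range K, ∑ k ∈ Finset.range K, ((j : ℝ) + 1) * ((k : ℝ) + 1) *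
        (2 * ((if j = k then cc (tr h) else |((j : ℝ) - k) * h|) -
          |((j : ℝ) + k + 2) * h|)))) := by
    refine tendsto_finsetSum _ fun j hj => tendsto_finsetSum _ fun k hk => ?_
    have hj1 := kb j hj
    have hk1 := kb k hk
    have q1 : |((j : ℝ) + k + 2) * h| = ((j : ℝ) + k + 2) * h := abs_of_nonneg (by positivity)
    refine Tendsto.const_mul _ (Tendsto.const_mul _ (Tendsto.sub ?_ ?_))
    · split_ifs with hjk
      · subst hjk
        rw [sub_self, zero_mul]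
        exact tt_lim0 RH hh (by linarith)
      · have q2 : |((j : ℝ) - k) * h| = |(j : ℝ) - k| * h := by rw [abs_mul, abs_of_pos hh]
        have q3 : 1 ≤ |(j : ℝ) - k| := by
          have h5 : (j : ℤ) - k ≠ 0 := by
            intro h6
            exact hjk (by omega)
          have h6 := Int.one_le_abs h5
          have h7 : ((1 : ℤ) : ℝ) ≤ ((|(j : ℤ) - k| : ℤ) : ℝ) := by exact_mod_cast h6
          push_cast at h7
          exact h7
        have q4 : |(j : ℝ) - k| ≤ K := by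
          rw [abs_le]
          have h8 : (0 : ℝ) ≤ j := Nat.cast_nonneg _
          have h9 : (0 : ℝ) ≤ k := Nat.cast_nonneg _
          constructor <;> linarith
        refine tt_lim RH hh ?_ ?_
        · rw [q2]; nlinarith
        · rw [q2]
          have := mul_le_mul_of_nonneg_right q4 hh.le
          nlinarith
    · refine tt_lim RH hh ?_ ?_
      · rw [q1]
        have h8 : (0 : ℝ) ≤ j := Nat.cast_nonneg _
        have h9 : (0 : ℝ) ≤ k := Nat.cast_nonneg _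
        nlinarith [mul_nonneg h8 hh.le, mul_nonneg h9 hh.le]
      · rw [q1]
        have : ((j : ℝ) + k + 2) * h ≤ (2 * K) * h :=
          mul_le_mul_of_nonneg_right (by linarith) hh.le
        nlinarith
  obtain ⟨B, hB⟩ : ∃ B : ℝ, B = ∑ j ∈ Finset.range K, ∑ k ∈ Finset.range K,
      ((j : ℝ) + 1) * ((k : ℝ) + 1) *
        (2 * ((if j = k then cc (tr h) else |((j : ℝ) - k) * h|) - |((j : ℝ) + k + 2) * h|)) :=
    ⟨_, rfl⟩
  rw [← hB] at l2
  have hBle : B ≤ 2 * (1 / h + h) * S := by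
    have hcc := (Pool.Agent.Y749.AH.cc_tr_le hh).1
    have e1 : ∀ j ∈ Finset.range K, ∀ k ∈ Finset.range K, ((j : ℝ) + 1) * ((k : ℝ) + 1) *
        (2 * ((if j = k then cc (tr h) else |((j : ℝ) - k) * h|) - |((j : ℝ) + k + 2) * h|)) ≤
        if j = k then 2 * (1 / h + h) * ((j : ℝ) + 1) ^ 2 else 0 := by
      intro j hj k hk
      have h8 : (0 : ℝ) ≤ j := Nat.cast_nonneg _
      have h9 : (0 : ℝ) ≤ k := Nat.cast_nonneg _
      have q1 : |((j : ℝ) + k + 2) * h| = ((j : ℝ) + k + 2) * h := abs_of_nonneg (by positivity)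
      have q0 : 0 ≤ ((j : ℝ) + 1) * ((k : ℝ) + 1) := by positivity
      rw [q1]
      split_ifs with hjk
      · subst hjk
        have q5 : cc (tr h) - ((j : ℝ) + j + 2) * h ≤ 1 / h + h := by
          have : 0 ≤ ((j : ℝ) + j + 2) * h := by positivity
          linarith
        have := mul_le_mul_of_nonneg_left q5 q0
        nlinarith
      · have q2 : |((j : ℝ) - k) * h| = |(j : ℝ) - k| * h := by rw [abs_mul, abs_of_pos hh]
        have q4 : |(j : ℝ) - k| ≤ j + k + 2 := by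
          rw [abs_le]
          constructor <;> linarith
        have q5 : |(j : ℝ) - k| * h - ((j : ℝ) + k + 2) * h ≤ 0 := by
          have := mul_le_mul_of_nonneg_right q4 hh.le
          linarith
        rw [q2]
        exact mul_nonpos_of_nonneg_of_nonpos q0 (by linarith)
    rw [hB, hS, Finset.mul_sum]
    refine Finset.sum_le_sum fun j hj => ?_
    refine (Finset.sum_le_sum fun k hk => e1 j hj k hk).trans ?_
    rw [Finset.sum_ite_eq, if_pos hj]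
  have l3 := tt_lim0 RH hh (by linarith : h < 1)
  obtain ⟨M, hM⟩ : ∃ M : ℝ, M = 1 / h + h := ⟨_, rfl⟩
  have hM0 : 0 < M := by rw [hM]; positivity
  have hccM : cc (tr h) ≤ M := by rw [hM]; exact (Pool.Agent.Y749.AH.cc_tr_le hh).1
  rw [← hM] at hBle
  -- the slack
  obtain ⟨ψ, hψ⟩ : ∃ ψ : ℝ → ℝ, ∀ e, ψ e = h * (M + e) -
      h * (((4 * h * S) ^ 2 - e) / (2 * (2 * M * S + e))) := ⟨_, fun e => rfl⟩
  have hψ0 : ψ 0 = 1 + h ^ 2 - 4 * h ^ 4 * S / (1 + h ^ 2) := by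
    rw [hψ, hM]
    have h5 : 0 < 1 + h ^ 2 := by positivity
    have h6 : 1 / h + h = (1 + h ^ 2) / h := by field_simp
    rw [h6]
    field_simp
    ring
  have hψc : ContinuousAt ψ 0 := by
    have : ψ = fun e => h * (M + e) - h * (((4 * h * S) ^ 2 - e) / (2 * (2 * M * S + e))) :=
      funext hψ
    rw [this]
    refine ContinuousAt.sub (by fun_prop) (ContinuousAt.mul (by fun_prop)
      (ContinuousAt.div (by fun_prop) (by fun_prop) ?_))
    rw [add_zero]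
    positivity
  have hψ1 : ψ 0 < 1 + h ^ 2 - 4 * h ^ 4 * S / (1 + h ^ 2) + η := by rw [hψ0]; linarith
  obtain ⟨δ, hδ, hδψ⟩ := Metric.eventually_nhds_iff.1 (hψc.eventually_lt_const hψ1)
  obtain ⟨e, he⟩ : ∃ e : ℝ, e = δ / 2 := ⟨_, rfl⟩
  have he0 : 0 < e := by rw [he]; positivity
  have hfin := hδψ (show dist e 0 < δ by rw [Real.dist_eq, sub_zero, abs_of_pos he0, he]; linarith)
  rw [hψ] at hfin
  have l1' := l1.pow 2
  filter_upwards [l1'.eventually_const_le (show (4 * h * S) ^ 2 - e < (-(4 * h * S)) ^ 2 by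
      rw [neg_sq]; linarith),
    l2.eventually_le_const (show B < 2 * M * S + e by linarith),
    l3.eventually_le_const (show cc (tr h) < M + e by linarith)] with T g1 g2 g3
  have h1 := tt_odd hh T c K
  have h2 := tt_le_zero hh T c
  have h3 : 0 ≤ 2 * (tt h T 0 - tt h T c) := by linarith
  have h4 : (4 * h * S) ^ 2 - e ≤ 2 * (tt h T 0 - tt h T c) * (2 * M * S + e) :=
    g1.trans (h1.trans (mul_le_mul_of_nonneg_left g2 h3))
  have hBpos : 0 < 2 * (2 * M * S + e) := by positivity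
  have h5 : ((4 * h * S) ^ 2 - e) / (2 * (2 * M * S + e)) ≤ tt h T 0 - tt h T c := by
    rw [div_le_iff₀ hBpos]
    linarith
  have h6 : tt h T c ≤ M + e - ((4 * h * S) ^ 2 - e) / (2 * (2 * M * S + e)) := by linarith
  have h7 := mul_le_mul_of_nonneg_left h6 hh.le
  rw [mul_sub] at h7
  rw [← hS]
  linarith

lemma sum_sq (K : ℕ) : (K : ℝ) ^ 3 / 3 ≤ ∑ k ∈ Finset.range K, ((k : ℝ) + 1) ^ 2 := by
  induction K with
  | zero => simp
  | succ n ih =>
    rw [Finset.sum_range_succ]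
    push_cast
    nlinarith [(Nat.cast_nonneg n : (0 : ℝ) ≤ n)]

/-- **the mass of one tent is smaller than one** -/
theorem tent_expl (RH : RiemannHypothesis) {c : ℝ} (hc1 : 1 ≤ c) (hc2 : c < 2) :
    ∃ h : ℝ, 0 < h ∧ ∀ᶠ T in atTop, h * tt h T c ≤ 1 - (1 - c / 2) ^ 6 / 9 := by
  obtain ⟨ρ, hρ⟩ : ∃ ρ : ℝ, ρ = 1 - c / 2 := ⟨_, rfl⟩
  have hρ0 : 0 < ρ := by rw [hρ]; linarith
  have hρ1 : ρ ≤ 1 / 2 := by rw [hρ]; linarith
  obtain ⟨h, hh⟩ : ∃ h : ℝ, h = ρ ^ 3 / 6 := ⟨_, rfl⟩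
  have hh0 : 0 < h := by rw [hh]; positivity
  have hρ2 : ρ ^ 2 ≤ 1 / 4 := by nlinarith
  have hhρ : h ≤ ρ / 24 := by
    rw [hh]
    have : ρ ^ 3 = ρ * ρ ^ 2 := by ring
    rw [this]
    nlinarith
  obtain ⟨K, hK⟩ : ∃ K : ℕ, K = ⌊ρ / h⌋₊ - 2 := ⟨_, rfl⟩
  have hx : 24 ≤ ρ / h := by rw [le_div_iff₀ hh0]; linarith
  have hfl : 24 ≤ ⌊ρ / h⌋₊ := Nat.le_floor (by exact_mod_cast hx)
  have hKr : (K : ℝ) = (⌊ρ / h⌋₊ : ℝ) - 2 := by
    rw [hK, Nat.cast_sub (by omega)]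
    norm_num
  have hf1 : (⌊ρ / h⌋₊ : ℝ) ≤ ρ / h := Nat.floor_le (by positivity)
  have hf2 : ρ / h < (⌊ρ / h⌋₊ : ℝ) + 1 := Nat.lt_floor_add_one _
  have hK1 : 1 ≤ K := by omega
  have hKc : ((K : ℝ) + 1) * h < 1 - c / 2 := by
    rw [← hρ, hKr]
    have h1 : (⌊ρ / h⌋₊ : ℝ) * h ≤ ρ := by rwa [← le_div_iff₀ hh0]
    nlinarith
  have hKh : 7 / 8 * ρ ≤ K * h := by
    rw [hKr]
    have h1 : ρ < ((⌊ρ / h⌋₊ : ℝ) + 1) * h := by rwa [← div_lt_iff₀ hh0]
    nlinarith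
  have hρ6 : 0 < ρ ^ 6 := by positivity
  refine ⟨h, hh0, ?_⟩
  filter_upwards [tent_bound RH hh0 hK1 hc1 hKc (η := ρ ^ 6 / 1000) (by positivity)] with T hT
  rw [← hρ]
  have h1 := sum_sq K
  have h2 : (7 / 8 * ρ) ^ 3 ≤ (K * h) ^ 3 := pow_le_pow_left₀ (by positivity) hKh 3
  have h3 : 4 / 3 * h * (7 / 8 * ρ) ^ 3 ≤ 4 * h ^ 4 * ∑ k ∈ Finset.range K, ((k : ℝ) + 1) ^ 2 := by
    calc 4 / 3 * h * (7 / 8 * ρ) ^ 3 ≤ 4 / 3 * h * (K * h) ^ 3 :=
          mul_le_mul_of_nonneg_left h2 (by positivity)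
      _ = 4 * h ^ 4 * ((K : ℝ) ^ 3 / 3) := by ring
      _ ≤ _ := mul_le_mul_of_nonneg_left h1 (by positivity)
  have h4 : 4 / 3 * h * (7 / 8 * ρ) ^ 3 = 343 / 2304 * ρ ^ 6 := by rw [hh]; ring
  have h5 : h ^ 2 = ρ ^ 6 / 36 := by rw [hh]; ring
  have hρ6' : ρ ^ 6 ≤ 1 / 64 := by
    have : ρ ^ 6 = (ρ ^ 2) ^ 3 := by ring
    rw [this]
    calc (ρ ^ 2) ^ 3 ≤ (1 / 4) ^ 3 := pow_le_pow_left₀ (by positivity) hρ2 3
      _ = 1 / 64 := by norm_num
  have h6 : 1 + h ^ 2 ≤ 1.0005 := by rw [h5]; linarith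
  have h7 : 343 / 2304 * ρ ^ 6 / 1.0005 ≤
      4 * h ^ 4 * (∑ k ∈ Finset.range K, ((k : ℝ) + 1) ^ 2) / (1 + h ^ 2) := by
    rw [← h4]
    exact div_le_div₀ (by positivity) h3 (by positivity) h6
  rw [h5] at hT h7
  have h8 : 343 / 2304 * ρ ^ 6 / 1.0005 = (343 / 2304 / 1.0005) * ρ ^ 6 := by ring
  rw [h8] at h7
  norm_num at h7 ⊢
  linarith

/-- **explicit bound for the masses beyond one** -/
theorem mass_expl (RH : RiemannHypothesis) {κ : ℝ} (hκ : 0 < κ) :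
    ∃ s : ℝ, 0 < s ∧ ∀ᶠ T in atTop, ∀ c : ℝ, 1 ≤ c → c ≤ 2 - κ →
      ∫ α in (c - s)..(c + s), Fr T α ≤ 1 - (1 - c / 2) ^ 6 / 10 := by
  -- the local statement
  have loc : ∀ c' ∈ Icc (1 : ℝ) (2 - κ), ∃ δ : ℝ, 0 < δ ∧ ∀ᶠ T in atTop, ∀ c : ℝ,
      |c - c'| < δ → ∫ α in (c - δ)..(c + δ), Fr T α ≤ 1 - (1 - c / 2) ^ 6 / 10 := by
    intro c' hc'
    obtain ⟨h, hh, h1⟩ := tent_expl RH hc'.1 (by linarith [hc'.2])
    have hr : 0 < 1 - c' / 2 := by linarith [hc'.2]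
    have hr6 : 0 < (1 - c' / 2) ^ 6 := by positivity
    -- continuity
    have c1 : ContinuousAt (fun δ : ℝ => (1 - (1 - c' / 2) ^ 6 / 9) / (1 - 2 * δ / h)) 0 := by
      refine ContinuousAt.div (by fun_prop) (by fun_prop) ?_
      norm_num
    have c2 : Continuous fun c : ℝ => 1 - (1 - c / 2) ^ 6 / 10 := by fun_prop
    obtain ⟨m, hm⟩ : ∃ m : ℝ, m = 1 - (1 - c' / 2) ^ 6 * (19 / 180) := ⟨_, rfl⟩
    have k1 : (1 - (1 - c' / 2) ^ 6 / 9) / (1 - 2 * 0 / h) < m := by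
      rw [hm]; norm_num; nlinarith
    have k2 : m < 1 - (1 - c' / 2) ^ 6 / 10 := by rw [hm]; nlinarith
    obtain ⟨δ1, hδ1, d1⟩ := Metric.eventually_nhds_iff.1 (c1.eventually_lt_const k1)
    obtain ⟨δ2, hδ2, d2⟩ := Metric.eventually_nhds_iff.1
      (c2.continuousAt.eventually_const_lt k2)
    obtain ⟨δ, hδ⟩ : ∃ δ : ℝ, δ = min (δ1 / 2) (min δ2 (h / 4)) := ⟨_, rfl⟩
    have e0 : 0 < δ := by rw [hδ]; exact lt_min (by positivity) (lt_min hδ2 (by positivity))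
    have e1 : δ ≤ δ1 / 2 := by rw [hδ]; exact min_le_left _ _
    have e2 : δ ≤ δ2 := by rw [hδ]; exact (min_le_right _ _).trans (min_le_left _ _)
    have e3 : δ ≤ h / 4 := by rw [hδ]; exact (min_le_right _ _).trans (min_le_right _ _)
    have d1' := d1 (show dist δ 0 < δ1 by rw [Real.dist_eq, sub_zero, abs_of_pos e0]; linarith)
    refine ⟨δ, e0, ?_⟩
    filter_upwards [h1, eventually_ge_atTop 10] with T g1 hT c hc
    have d2' := d2 (show dist c c' < δ2 by rw [Real.dist_eq]; linarith)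
    obtain ⟨b1, b2⟩ := abs_lt.1 hc
    have hFc := Fr_cont T
    have hF0 := Fr_nonneg hT
    have a1 : ∫ α in (c - δ)..(c + δ), Fr T α ≤ ∫ α in (c' - 2 * δ)..(c' + 2 * δ), Fr T α := by
      refine intervalIntegral.integral_mono_interval (by linarith) (by linarith) (by linarith)
        (ae_of_all _ fun α => hF0 α) (hFc.intervalIntegrable _ _)
    have a2 := Pool.Agent.Y749.AH.tent_low (θ := c') (δ := 2 * δ) hh (by positivity)
      (by linarith) hT
    have hpos : 0 < 1 - 2 * δ / h := by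
      have : 2 * δ / h ≤ 1 / 2 := by rw [div_le_iff₀ hh]; linarith
      linarith
    have a3 : ∫ α in (c' - 2 * δ)..(c' + 2 * δ), Fr T α ≤
        (1 - (1 - c' / 2) ^ 6 / 9) / (1 - 2 * δ / h) := by
      rw [le_div_iff₀ hpos]
      have a4 := mul_le_mul_of_nonneg_left a2 hh.le
      have a5 : h * ((1 - 2 * δ / h) / h * ∫ α in (c' - 2 * δ)..(c' + 2 * δ), Fr T α) =
          (∫ α in (c' - 2 * δ)..(c' + 2 * δ), Fr T α) * (1 - 2 * δ / h) := by field_simp
      rw [a5] at a4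
      exact a4.trans g1
    linarith
  choose! δ hδ hloc using loc
  obtain ⟨t, ht, hcov⟩ := (isCompact_Icc (a := (1 : ℝ)) (b := 2 - κ)).elim_nhds_subcover
    (fun x => Metric.ball x (δ x)) (fun x hx => Metric.ball_mem_nhds x (hδ x hx))
  have hs : ∀ᶠ s in 𝓝[>] (0 : ℝ), ∀ x ∈ t, s ≤ δ x := by
    rw [Filter.eventually_all_finset]
    intro x hx
    filter_upwards [Ioo_mem_nhdsGT (hδ x (ht x hx))] with s hs using hs.2.le
  obtain ⟨s, hs1, hs0⟩ := (hs.and self_mem_nhdsWithin).exists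
  have hs0' : 0 < s := hs0
  refine ⟨s, hs0', ?_⟩
  have hev : ∀ᶠ T in atTop, ∀ c' ∈ t, ∀ c : ℝ, |c - c'| < δ c' →
      ∫ α in (c - δ c')..(c + δ c'), Fr T α ≤ 1 - (1 - c / 2) ^ 6 / 10 := by
    rw [Filter.eventually_all_finset]
    intro c' hc'
    exact hloc c' (ht c' hc')
  filter_upwards [hev, eventually_ge_atTop 10] with T g1 hT c h1 h2
  obtain ⟨c', hc', hb⟩ := mem_iUnion₂.1 (hcov (show c ∈ Icc 1 (2 - κ) from ⟨h1, h2⟩))
  rw [Metric.mem_ball, Real.dist_eq] at hb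
  have h3 := g1 c' hc' c hb
  have h4 := hs1 c' hc'
  refine le_trans ?_ h3
  exact intervalIntegral.integral_mono_interval (by linarith) (by linarith) (by linarith)
    (ae_of_all _ fun α => Fr_nonneg hT α) ((Fr_cont T).intervalIntegrable _ _)

/-- **explicit bound for the values beyond one** -/
theorem val_expl (RH : RiemannHypothesis) {κ : ℝ} (hκ : 0 < κ) :
    ∀ᶠ T in atTop, ∀ c : ℝ, 1 ≤ c → c ≤ 2 - κ →
      Fr T c ≤ (1 - (1 - c / 2) ^ 6 / 12) * Real.log T := by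
  obtain ⟨s, hs, h1⟩ := mass_expl RH hκ
  obtain ⟨e, he⟩ : ∃ e : ℝ, e = (κ / 2) ^ 6 / 60 := ⟨_, rfl⟩
  have he0 : 0 < e := by rw [he]; positivity
  filter_upwards [h1, val_le hs he0, eventually_ge_atTop 10] with T g1 g2 hT c hc1 hc2
  have hL : 0 < Real.log T := by
    have := one_lt_log (show 3 ≤ T by linarith)
    linarith
  have h3 := g1 c hc1 hc2
  have h4 := g2 c
  have h5 : (κ / 2) ^ 6 ≤ (1 - c / 2) ^ 6 := pow_le_pow_left₀ (by positivity) (by linarith) 6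
  have h6 : 0 ≤ (1 - c / 2) ^ 6 := by positivity
  have h7 : (1 + e) * Real.log T * ∫ α in (c - s)..(c + s), Fr T α ≤
      (1 + e) * Real.log T * (1 - (1 - c / 2) ^ 6 / 10) :=
    mul_le_mul_of_nonneg_left h3 (by positivity)
  have h8 : (1 + e) * (1 - (1 - c / 2) ^ 6 / 10) ≤ 1 - (1 - c / 2) ^ 6 / 12 := by
    have h9 : e ≤ (1 - c / 2) ^ 6 / 60 := by rw [he]; linarith
    nlinarith
  have h10 := mul_le_mul_of_nonneg_right h8 hL.le
  nlinarith

/-- the value at zero -/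
lemma zero_le_log (RH : RiemannHypothesis) {ε : ℝ} (hε : 0 < ε) :
    ∀ᶠ T in atTop, Fr T 0 ≤ (1 + ε) * Real.log T := by
  obtain ⟨e, he⟩ : ∃ e : ℝ, e = min 1 (ε / 3) := ⟨_, rfl⟩
  have he0 : 0 < e := by rw [he]; exact lt_min one_pos (by positivity)
  have he1 : e ≤ 1 := by rw [he]; exact min_le_left _ _
  have he2 : e ≤ ε / 3 := by rw [he]; exact min_le_right _ _
  obtain ⟨s, hs, h1⟩ := bessel RH (κ := 1) one_pos he0
  filter_upwards [h1, val_le hs he0, eventually_ge_atTop 10] with T g1 g2 hT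
  have hL : 0 < Real.log T := by
    have := one_lt_log (show 3 ≤ T by linarith)
    linarith
  have h2 := g1 {0} (by simp)
  rw [Finset.sum_singleton] at h2
  have h3 := g2 0
  have h4 : 0 ≤ ∫ α in ((0 : ℝ) - s)..(0 + s), Fr T α :=
    intervalIntegral.integral_nonneg (by linarith) fun α _ => Fr_nonneg hT α
  have h5 : ∫ α in ((0 : ℝ) - s)..(0 + s), Fr T α ≤ 1 + e := by nlinarith
  have h6 : (1 + e) * Real.log T * ∫ α in ((0 : ℝ) - s)..(0 + s), Fr T α ≤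
      (1 + e) * Real.log T * (1 + e) := mul_le_mul_of_nonneg_left h5 (by positivity)
  have h7 : (1 + e) * (1 + e) ≤ 1 + ε := by nlinarith
  have h8 := mul_le_mul_of_nonneg_right h7 hL.le
  nlinarith

/-- **two frequencies** -/
theorem two_freq (RH : RiemannHypothesis) {κ ε : ℝ} (hκ : 0 < κ) (hε : 0 < ε) :
    ∀ᶠ T in atTop, ∀ α β : ℝ, 1 ≤ |α - β| → |α - β| ≤ 2 - κ →
      Fr T α ^ 2 + Fr T β ^ 2 ≤ (2 - (1 - |α - β| / 2) ^ 6 / 12 + ε) * (Real.log T) ^ 2 := by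
  obtain ⟨e, he⟩ : ∃ e : ℝ, e = min 1 (ε / 4) := ⟨_, rfl⟩
  have he0 : 0 < e := by rw [he]; exact lt_min one_pos (by positivity)
  have he1 : e ≤ 1 := by rw [he]; exact min_le_left _ _
  have he2 : e ≤ ε / 4 := by rw [he]; exact min_le_right _ _
  filter_upwards [val_expl RH hκ, zero_le_log RH he0, eventually_ge_atTop 10] with T g1 g2 hT
    α β h1 h2
  have hL : 0 < Real.log T := by
    have := one_lt_log (show 3 ≤ T by linarith)
    linarith
  have hF := Fr_nonneg hT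
  have h3 : Fr T (α - β) = Fr T |α - β| := by
    rcases abs_choice (α - β) with h | h
    · rw [h]
    · rw [h, Fr_even]
  have h4 := g1 |α - β| h1 h2
  rw [← h3] at h4
  have h5 := Fr_sel T (Finset.univ : Finset (Fin 2)) ![Fr T α, Fr T β] ![α, β]
  simp only [Fin.sum_univ_two, Matrix.cons_val_zero, Matrix.cons_val_one, sub_self] at h5
  have h6 : Fr T (β - α) = Fr T (α - β) := by rw [← Fr_even, neg_sub]
  rw [h6] at h5
  obtain ⟨P, hP⟩ : ∃ P : ℝ, P = Fr T α ^ 2 + Fr T β ^ 2 := ⟨_, rfl⟩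
  have hP0 : 0 ≤ P := by rw [hP]; positivity
  have h7 : P * P ≤ (Fr T 0 * (Fr T 0 + Fr T (α - β))) * P := by
    have h8 : P * P = (Fr T α * Fr T α + Fr T β * Fr T β) ^ 2 := by rw [hP]; ring
    have h9 : 2 * (Fr T α * Fr T β) ≤ P := by rw [hP]; nlinarith [sq_nonneg (Fr T α - Fr T β)]
    rw [h8]
    refine h5.trans ?_
    rw [mul_assoc (Fr T 0) (Fr T 0 + Fr T (α - β)) P]
    refine mul_le_mul_of_nonneg_left ?_ (hF 0)
    have h10 := mul_le_mul_of_nonneg_right h9 (hF (α - β))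
    have h11 : (Fr T 0 + Fr T (α - β)) * P = Fr T 0 * (Fr T α ^ 2 + Fr T β ^ 2) +
        P * Fr T (α - β) := by rw [hP]; ring
    rw [h11]
    nlinarith
  have h8 : P ≤ Fr T 0 * (Fr T 0 + Fr T (α - β)) := by
    rcases hP0.eq_or_lt with h0 | h0
    · rw [← h0]
      exact mul_nonneg (hF 0) (add_nonneg (hF 0) (hF _))
    · exact le_of_mul_le_mul_right h7 h0
  rw [← hP]
  obtain ⟨w, hw⟩ : ∃ w : ℝ, w = (1 - |α - β| / 2) ^ 6 / 12 := ⟨_, rfl⟩
  have hw0 : 0 ≤ w := by rw [hw]; positivity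
  rw [← hw] at h4 ⊢
  have hw1 : w ≤ 1 := by
    have h9 : (1 - |α - β| / 2) ^ 6 ≤ 1 := pow_le_one₀ (by linarith) (by linarith)
    rw [hw]; linarith
  calc P ≤ Fr T 0 * (Fr T 0 + Fr T (α - β)) := h8
    _ ≤ ((1 + e) * Real.log T) * ((1 + e) * Real.log T + (1 - w) * Real.log T) := by
        refine mul_le_mul g2 (add_le_add g2 h4) (add_nonneg (hF 0) (hF _)) (by positivity)
    _ = ((1 + e) * (1 + e + (1 - w))) * (Real.log T) ^ 2 := by ring
    _ ≤ (2 - w + ε) * (Real.log T) ^ 2 := by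
        refine mul_le_mul_of_nonneg_right ?_ (by positivity)
        nlinarith

end Pool.Agent.U252.LV
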